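import Pool.Agent.BEN.StmtsB

/-!
# Row SOL of squad BEN: the wave equation with a source, for jets
-/

set_option autoImplicit false

namespace Pool.Agent.BEN.H96

open Set Filter Topology MeasureTheory
open scoped InnerProductSpace ENNReal
open Pool.Agent.BE01 Pool.Agent.BEL Pool.Agent.BEF Pool.Agent.BEH

noncomputable section

variable {T : Type} [MeasurableSpace T] {μ : Measure T}

lemma eLp_add {p : ℝ≥0∞} (hp : 1 ≤ p) (a b : Lp ℝ 2 μ) :
    eLpNorm ((a + b : Lp ℝ 2 μ) : T → ℝ) p μ ≤ eLpNorm a p μ + eLpNorm b p μ := by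
  rw [eLpNorm_congr_ae (Lp.coeFn_add a b)]
  exact eLpNorm_add_le (Lp.aestronglyMeasurable a) (Lp.aestronglyMeasurable b) hp

lemma eLp_neg (p : ℝ≥0∞) (a : Lp ℝ 2 μ) :
    eLpNorm ((-a : Lp ℝ 2 μ) : T → ℝ) p μ = eLpNorm a p μ := by
  rw [eLpNorm_congr_ae (Lp.coeFn_neg a), eLpNorm_neg]

lemma eLp_eq {p : ℝ≥0∞} (a : Lp ℝ p μ) : eLpNorm a p μ = ENNReal.ofReal ‖a‖ := by
  rw [Lp.norm_def, ENNReal.ofReal_toReal (Lp.eLpNorm_ne_top a)]

variable [IsFiniteMeasure μ] {s : ℕ} {V C0 : ℝ} {X : Type} [NormedCommRing X]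
  [NormedAlgebra ℝ X] {W : Wx X (Lp ℝ 2 μ)} {A : Jax (Jt s μ)} {L : Jlk W s A (max 1 V)}

omit [IsFiniteMeasure μ] in
lemma cmp_eq (x : Jt s μ) {j : ℕ} (hj : j ≤ s) :
    cmp x j = (x ⟨j, Nat.lt_succ_of_le hj⟩ : T → ℝ) := by
  unfold cmp
  rw [dif_pos (Nat.lt_succ_of_le hj)]

/-- the components of the velocity -/
def yv (L : Jlk W s A (max 1 V)) (f : ℝ → Jt s μ) (j : ℕ) (t : ℝ) : Lp ℝ 2 μ :=
  cI W.C (fun r => L.pr j (f r)) t

lemma pr_eLp (QEF : QefStmt) (INQ : InqStmt) (hs : 1 ≤ s) (hV : μ.real univ ≤ V)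
    (hpr : ∀ x, ∀ j ≤ s, L.pr j x =ᵐ[μ] cmp x j) {i j : ℕ} (hij : i ≤ j) (hj : j ≤ s)
    (x : Jt s μ) : eLpNorm (L.pr i x) (qe s j) μ ≤ ENNReal.ofReal (max 1 V * ‖x‖) := by
  have hi : i ≤ s := hij.trans hj
  obtain ⟨ι, h1, _, h3⟩ := INQ T μ (qe s i) (qe s j) V ((QEF s hs).2.2.2.2.1 i j hij hj) hV
  have e1 : eLpNorm (L.pr i x) (qe s j) μ =
      eLpNorm (ι (x ⟨i, Nat.lt_succ_of_le hi⟩)) (qe s j) μ := by
    refine eLpNorm_congr_ae ?_
    refine (hpr x i hi).trans ?_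
    rw [cmp_eq x hi]
    exact (h1 _).symm
  rw [e1, eLp_eq]
  refine ENNReal.ofReal_le_ofReal ((h3 _).trans ?_)
  exact mul_le_mul_of_nonneg_left (norm_le_pi_norm x _) (by positivity)

lemma pr_norm (QEF : QefStmt) (INQ : InqStmt) (hs : 1 ≤ s) (hV : μ.real univ ≤ V)
    (hpr : ∀ x, ∀ j ≤ s, L.pr j x =ᵐ[μ] cmp x j) {j : ℕ} (hj : j ≤ s)
    (x : Jt s μ) : ‖L.pr j x‖ ≤ max 1 V * ‖x‖ := by
  have h1 := pr_eLp QEF INQ hs hV hpr hj le_rfl x
  rw [(QEF s hs).2.1, eLp_eq] at h1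
  have h0 : 0 ≤ max 1 V * ‖x‖ := by positivity
  exact (ENNReal.ofReal_le_ofReal_iff h0).1 h1

omit [IsFiniteMeasure μ] in
/-- uniqueness of the element with given components -/
lemma jt_ext (hpr : ∀ x, ∀ j ≤ s, L.pr j x =ᵐ[μ] cmp x j) {x y : Jt s μ}
    (h : ∀ j ≤ s, L.pr j x = L.pr j y) : x = y := by
  funext j
  have hj : (j : ℕ) ≤ s := Nat.le_of_lt_succ j.2
  have h1 := hpr x j hj
  have h2 := hpr y j hj
  rw [h j hj] at h1
  have h3 := h1.symm.trans h2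
  rw [cmp_eq x hj, cmp_eq y hj] at h3
  exact Lp.ext h3

/-- the data of a source -/
structure Src (A : Jax (Jt s μ)) (t0 m N : ℝ) (f : ℝ → Jt s μ) : Prop where
  t0_le : 1 ≤ t0
  m_gt : 1 < m
  cu : A.Cu t0 f
  le : ∀ t > t0, ‖f t‖ ≤ N * t ^ (-m)

omit [IsFiniteMeasure μ] in
lemma Src.N_nonneg {t0 m N : ℝ} {f : ℝ → Jt s μ} (h : Src A t0 m N f) : 0 ≤ N := by
  have h1 := (norm_nonneg _).trans (h.le (t0 + 1) (by linarith))
  have h2 : 0 < (t0 + 1) ^ (-m) := Real.rpow_pos_of_pos (by linarith [h.t0_le]) _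
  exact nonneg_of_mul_nonneg_left h1 h2

section facts

variable {t0 m N : ℝ} {f : ℝ → Jt s μ}

omit [IsFiniteMeasure μ] in
lemma prf_cont (h : Src A t0 m N f) (j : ℕ) : ContinuousOn (fun r => L.pr j (f r)) (Ioi t0) :=
  (L.pr j).continuous.comp_continuousOn (A.cont t0 f h.cu)

lemma prf_le (QEF : QefStmt) (INQ : InqStmt) (hs : 1 ≤ s) (hV : μ.real univ ≤ V)
    (hpr : ∀ x, ∀ j ≤ s, L.pr j x =ᵐ[μ] cmp x j) (h : Src A t0 m N f) {j : ℕ} (hj : j ≤ s)
    (t : ℝ) (ht : t0 < t) : ‖L.pr j (f t)‖ ≤ max 1 V * N * t ^ (-m) := by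
  refine (pr_norm QEF INQ hs hV hpr hj (f t)).trans ?_
  rw [mul_assoc]
  exact mul_le_mul_of_nonneg_left (h.le t ht) (by positivity)

/-- LIX for the components -/
lemma lix_use (LIX : LixStmt) (QEF : QefStmt) (INQ : InqStmt) (hs : 1 ≤ s)
    (hV : μ.real univ ≤ V) (hpr : ∀ x, ∀ j ≤ s, L.pr j x =ᵐ[μ] cmp x j)
    (h : Src A t0 m N f) {j : ℕ} (hj : j + 1 ≤ s) (t : ℝ) (ht : t0 < t) :
    HasDerivAt (yv L f j) (yv L f (j + 1) t) t ∧
    yv L f j t = - W.R (cI W.Sn (fun r => L.pr (j + 1) (f r)) t) ∧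
    (j + 2 ≤ s → yv L f j t = - W.S (L.pr (j + 1) (f t) + yv L f (j + 2) t)) := by
  obtain ⟨_, h2, _, h4, h5⟩ := LIX (Lp ℝ 2 μ) W.S W.R W.C W.Sn W.prp
    (fun r => L.pr j (f r)) (fun r => L.pr (j + 1) (f r)) t0 m (max 1 V * N) h.t0_le h.m_gt
    (fun t ht => L.der t0 f h.cu j (by omega) t ht) (prf_cont h (j + 1))
    (prf_le QEF INQ hs hV hpr h (by omega)) (prf_le QEF INQ hs hV hpr h hj) t ht
  refine ⟨h2, h4, fun hj2 => ?_⟩
  exact h5 (fun r => L.pr (j + 2) (f r)) (fun r hr => L.der t0 f h.cu (j + 1) (by omega) r hr)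
    (prf_cont h (j + 2)) (prf_le QEF INQ hs hV hpr h hj2)

/-- the bound -/
def Bt (V t0 m N t : ℝ) : ℝ := max 1 V * (1 / (m - 1) + 1 / t0) * N * t ^ (1 - m)

omit [IsFiniteMeasure μ] in
lemma Bt_ge (h : Src A t0 m N f) {t : ℝ} (ht : t0 < t) :
    max 1 V * N / (m - 1) * t ^ (1 - m) ≤ Bt V t0 m N t ∧
    max 1 V * N * t ^ (-m) ≤ Bt V t0 m N t ∧ 0 ≤ Bt V t0 m N t := by
  have hN := h.N_nonneg
  have ht0 : 0 < t0 := by linarith [h.t0_le]
  have htp : 0 < t := ht0.trans ht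
  have hm : 0 < m - 1 := by linarith [h.m_gt]
  have hV : 0 ≤ max 1 V := by positivity
  have hp : 0 ≤ t ^ (1 - m) := Real.rpow_nonneg htp.le _
  have e1 : t ^ (-m) = t ^ (1 - m) * t⁻¹ := by
    rw [← Real.rpow_neg_one t, ← Real.rpow_add htp]
    congr 1
    ring
  have e2 : Bt V t0 m N t = max 1 V * N / (m - 1) * t ^ (1 - m) +
      max 1 V * N * t ^ (1 - m) * t0⁻¹ := by
    unfold Bt
    field_simp
  have h3 : t⁻¹ ≤ t0⁻¹ := inv_anti₀ ht0 ht.le
  have h4 : 0 ≤ max 1 V * N / (m - 1) * t ^ (1 - m) := by positivity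
  have h5 : 0 ≤ max 1 V * N * t ^ (1 - m) * t0⁻¹ := by positivity
  have h6 : max 1 V * N * t ^ (1 - m) * t⁻¹ ≤ max 1 V * N * t ^ (1 - m) * t0⁻¹ :=
    mul_le_mul_of_nonneg_left h3 (by positivity)
  refine ⟨by linarith, ?_, by linarith⟩
  rw [e1, e2]
  have e3 : max 1 V * N * (t ^ (1 - m) * t⁻¹) = max 1 V * N * t ^ (1 - m) * t⁻¹ := by ring
  rw [e3]
  linarith

/-- the two claims, downwards in `j` -/
lemma claim (LIA : LiaStmt) (LIX : LixStmt) (QEF : QefStmt) (INQ : InqStmt) (hs : 2 ≤ s)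
    (hV : μ.real univ ≤ V) (hC0 : 0 < C0) (hS : Sbd W s C0)
    (hpr : ∀ x, ∀ j ≤ s, L.pr j x =ᵐ[μ] cmp x j)
    (h : Src A t0 m N f) (k : ℕ) : ∀ j, j + k = s →
    (∀ t > t0, eLpNorm (yv L f j t) (qe s j) μ ≤
      ENNReal.ofReal ((2 * (1 + C0)) ^ (k + 1) * Bt V t0 m N t)) ∧
    ∀ t > t0, Tendsto (fun r => eLpNorm ((yv L f j r -
      yv L f j t : Lp ℝ 2 μ) : T → ℝ) (qe s j) μ) (𝓝 t) (𝓝 0) := by
  have hs1 : 1 ≤ s := by omega
  have ht00 : 0 < t0 := by linarith [h.t0_le]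
  have hc1 : 1 ≤ 2 * (1 + C0) := by linarith
  have liaC := LIA (Lp ℝ 2 μ) W.C (fun r => L.pr s (f r)) t0 m (max 1 V * N) ht00 h.m_gt
    W.prp.C_le W.prp.C_cont (prf_cont h s) (prf_le QEF INQ hs1 hV hpr h le_rfl)
  have liaS := LIA (Lp ℝ 2 μ) W.Sn (fun r => L.pr s (f r)) t0 m (max 1 V * N) ht00 h.m_gt
    W.prp.Sn_le W.prp.Sn_cont (prf_cont h s) (prf_le QEF INQ hs1 hV hpr h le_rfl)
  induction k using Nat.twoStepInduction with
  | zero =>
    intro j hj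
    obtain rfl : j = s := by omega
    have e2 := (QEF j hs1).2.1
    rw [e2]
    refine ⟨fun t ht => ?_, fun t ht => ?_⟩
    · rw [eLp_eq]
      refine ENNReal.ofReal_le_ofReal ?_
      have h1 : ‖yv L f j t‖ ≤ _ := liaC.2.2 t ht
      obtain ⟨b1, _, b3⟩ := Bt_ge (V := V) h ht
      refine (h1.trans b1).trans ?_
      rw [zero_add, pow_one]
      nlinarith
    · have h1 : ContinuousAt (fun r => yv L f j r) t :=
        liaC.2.1.continuousAt (Ioi_mem_nhds ht)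
      have h2 := tendsto_iff_norm_sub_tendsto_zero.1 h1
      have h3 := ENNReal.tendsto_ofReal h2
      rw [ENNReal.ofReal_zero] at h3
      refine h3.congr fun r => ?_
      rw [eLp_eq]
  | one =>
    intro j hj
    have hj1 : s - 1 = j := by omega
    have hjs : j + 1 = s := hj
    have hval : ∀ t > t0, yv L f j t =
        W.R (- cI W.Sn (fun r => L.pr s (f r)) t) := by
      intro t ht
      have h1 := (lix_use LIX QEF INQ hs1 hV hpr h (by omega : j + 1 ≤ s) t ht).2.1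
      rw [hjs] at h1
      rw [h1, map_neg]
    have hR := hS.R
    rw [hj1] at hR
    refine ⟨fun t ht => ?_, fun t ht => ?_⟩
    · rw [hval t ht]
      refine (hR _).trans (ENNReal.ofReal_le_ofReal ?_)
      rw [norm_neg]
      have h1 : ‖cI W.Sn (fun r => L.pr s (f r)) t‖ ≤ _ := liaS.2.2 t ht
      obtain ⟨b1, _, b3⟩ := Bt_ge (V := V) h ht
      have h2 := mul_le_mul_of_nonneg_left (h1.trans b1) hC0.le
      refine h2.trans (mul_le_mul_of_nonneg_right ?_ b3)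
      have h5 : 2 * (1 + C0) ≤ (2 * (1 + C0)) ^ (1 + 1) := le_self_pow₀ hc1 (by norm_num)
      linarith
    · have h1 : ContinuousAt (fun r => cI W.Sn (fun r => L.pr s (f r)) r) t :=
        liaS.2.1.continuousAt (Ioi_mem_nhds ht)
      have h2 := tendsto_iff_norm_sub_tendsto_zero.1 h1
      have h3 := ENNReal.tendsto_ofReal (h2.const_mul C0)
      rw [mul_zero, ENNReal.ofReal_zero] at h3
      refine tendsto_of_tendsto_of_tendsto_of_le_of_le' tendsto_const_nhds h3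
        (Eventually.of_forall fun _ => bot_le) ?_
      filter_upwards [Ioi_mem_nhds ht] with r hr
      have e1 : yv L f j r - yv L f j t =
          W.R (- (cI W.Sn (fun r => L.pr s (f r)) r - cI W.Sn (fun r => L.pr s (f r)) t)) := by
        rw [hval t ht, hval r hr, ← map_sub]
        congr 1
        abel
      rw [e1]
      refine (hR _).trans (ENNReal.ofReal_le_ofReal ?_)
      rw [norm_neg]
  | more k ih _ =>
    intro j hj
    obtain ⟨ih1, ih2⟩ := ih (j + 2) (by omega)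
    have hj2 : j + 2 ≤ s := by omega
    have hval : ∀ t > t0, yv L f j t =
        W.S (- (L.pr (j + 1) (f t) + yv L f (j + 2) t)) := by
      intro t ht
      have h1 := (lix_use LIX QEF INQ hs1 hV hpr h (by omega : j + 1 ≤ s) t ht).2.2 hj2
      rw [h1, map_neg]
    have hq : (1 : ℝ≥0∞) ≤ qe s (j + 2) := (qe_fact s (j + 2)).out
    refine ⟨fun t ht => ?_, fun t ht => ?_⟩
    · rw [hval t ht]
      refine (hS.S j hj2 _).trans ?_
      rw [eLp_neg]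
      obtain ⟨_, b2, b3⟩ := Bt_ge (V := V) h ht
      have h1 : eLpNorm ((L.pr (j + 1) (f t) + yv L f (j + 2) t :
          Lp ℝ 2 μ) : T → ℝ) (qe s (j + 2)) μ ≤ ENNReal.ofReal (Bt V t0 m N t) +
          ENNReal.ofReal ((2 * (1 + C0)) ^ (k + 1) * Bt V t0 m N t) := by
        refine (eLp_add hq _ _).trans (add_le_add ?_ (ih1 t ht))
        refine (pr_eLp QEF INQ hs1 hV hpr (by omega) hj2 (f t)).trans
          (ENNReal.ofReal_le_ofReal ?_)
        refine le_trans ?_ b2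
        rw [mul_assoc]
        exact mul_le_mul_of_nonneg_left (h.le t ht) (by positivity)
      refine (mul_le_mul_right h1 _).trans ?_
      rw [← ENNReal.ofReal_add b3 (by positivity), ← ENNReal.ofReal_mul hC0.le]
      refine ENNReal.ofReal_le_ofReal ?_
      have h2 : 1 ≤ (2 * (1 + C0)) ^ (k + 1) := one_le_pow₀ hc1
      have h3 : (2 * (1 + C0)) ^ (k + 2 + 1) = (2 * (1 + C0)) ^ (k + 1) * (2 * (1 + C0)) ^ 2 := by
        ring
      rw [h3]
      have h4 : C0 * (1 + (2 * (1 + C0)) ^ (k + 1)) ≤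
          (2 * (1 + C0)) ^ (k + 1) * (2 * (1 + C0)) ^ 2 := by
        have h5 : C0 * (1 + (2 * (1 + C0)) ^ (k + 1)) ≤ C0 * (2 * (2 * (1 + C0)) ^ (k + 1)) :=
          mul_le_mul_of_nonneg_left (by linarith) hC0.le
        have h6 : 0 ≤ (2 * (1 + C0)) ^ (k + 1) := by positivity
        have h7 : C0 * 2 ≤ (2 * (1 + C0)) ^ 2 := by nlinarith
        have h8 := mul_le_mul_of_nonneg_left h7 h6
        nlinarith
      have h9 := mul_le_mul_of_nonneg_right h4 b3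
      nlinarith
    · have hf : ContinuousAt f t := (A.cont t0 f h.cu).continuousAt (Ioi_mem_nhds ht)
      have h2 := tendsto_iff_norm_sub_tendsto_zero.1 hf
      have h3 := ENNReal.tendsto_ofReal (h2.const_mul (max 1 V))
      rw [mul_zero, ENNReal.ofReal_zero] at h3
      have h4 := ENNReal.Tendsto.const_mul (a := ENNReal.ofReal C0) (h3.add (ih2 t ht))
        (Or.inr ENNReal.ofReal_ne_top)
      rw [add_zero, mul_zero] at h4
      refine tendsto_of_tendsto_of_tendsto_of_le_of_le' tendsto_const_nhds h4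
        (Eventually.of_forall fun _ => bot_le) ?_
      filter_upwards [Ioi_mem_nhds ht] with r hr
      have e1 : yv L f j r - yv L f j t =
          W.S (- (L.pr (j + 1) (f r - f t) + (yv L f (j + 2) r -
            yv L f (j + 2) t))) := by
        rw [hval t ht, hval r hr, ← map_sub, map_sub (L.pr (j + 1))]
        congr 1
        abel
      rw [e1]
      refine (hS.S j hj2 _).trans ?_
      rw [eLp_neg]
      refine mul_le_mul_right ?_ _
      refine (eLp_add hq _ _).trans (add_le_add ?_ le_rfl)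
      exact pr_eLp QEF INQ hs1 hV hpr (by omega) hj2 (f r - f t)

/-- existence of the velocity -/
lemma exist (LIA : LiaStmt) (LIX : LixStmt) (QEF : QefStmt) (INQ : InqStmt) (JLF : JlfStmt)
    (hs : 2 ≤ s) (hV : μ.real univ ≤ V) (hC0 : 0 < C0) (hS : Sbd W s C0)
    (hpr : ∀ x, ∀ j ≤ s, L.pr j x =ᵐ[μ] cmp x j) (h : Src A t0 m N f) :
    ∃ x : ℝ → Jt s μ, Cuj s μ t0 x ∧ ∀ t > t0, (∀ j ≤ s,
      L.pr j (x t) = yv L f j t) ∧
      ‖x t‖ ≤ (2 * (1 + C0)) ^ (s + 1) * Bt V t0 m N t := by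
  have hs1 : 1 ≤ s := by omega
  have hc := fun k => claim LIA LIX QEF INQ hs hV hC0 hS hpr h k
  obtain ⟨x, hx, hx2⟩ := JLF T μ s t0 (fun j => yv L f j) hs1
    (fun j hj t ht => ((hc (s - j) j (by omega)).1 t ht).trans_lt ENNReal.ofReal_lt_top)
    (fun j hj t ht => (hc (s - j) j (by omega)).2 t ht)
    (fun j hj t ht => (lix_use LIX QEF INQ hs1 hV hpr h (by omega : j + 1 ≤ s) t ht).1)
  refine ⟨x, hx, fun t ht => ⟨fun j hj => ?_, ?_⟩⟩
  · exact Lp.ext ((hpr (x t) j hj).trans (hx2 t ht j hj))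
  · have b3 := (Bt_ge (V := V) h ht).2.2
    have hc1 : 1 ≤ 2 * (1 + C0) := by linarith
    rw [pi_norm_le_iff_of_nonneg (by positivity)]
    intro j
    have hj : (j : ℕ) ≤ s := Nat.le_of_lt_succ j.2
    have h1 := (hc (s - j) j (by omega)).1 t ht
    have e1 : eLpNorm (yv L f (j : ℕ) t) (qe s (j : ℕ)) μ =
        eLpNorm (x t j) (qe s (j : ℕ)) μ := by
      refine eLpNorm_congr_ae ?_
      refine (hx2 t ht j hj).symm.trans ?_
      rw [cmp_eq (x t) hj]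
    rw [e1, eLp_eq, ENNReal.ofReal_le_ofReal_iff (by positivity)] at h1
    refine h1.trans (mul_le_mul_of_nonneg_right ?_ b3)
    exact pow_le_pow_right₀ hc1 (by omega)

end facts

open Classical in
/-- the operator -/
def KK (L : Jlk W s A (max 1 V)) (f : ℝ → Jt s μ) (t : ℝ) : Jt s μ :=
  if h : ∃ v : Jt s μ, ∀ j ≤ s, L.pr j v = cI W.C (fun r => L.pr j (f r)) t then h.choose else 0

omit [IsFiniteMeasure μ] in
lemma KK_eq (hpr : ∀ x, ∀ j ≤ s, L.pr j x =ᵐ[μ] cmp x j) {f : ℝ → Jt s μ} {t : ℝ} {v : Jt s μ}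
    (hv : ∀ j ≤ s, L.pr j v = cI W.C (fun r => L.pr j (f r)) t) : KK L f t = v := by
  have h : ∃ v : Jt s μ, ∀ j ≤ s, L.pr j v = cI W.C (fun r => L.pr j (f r)) t := ⟨v, hv⟩
  unfold KK
  rw [dif_pos h]
  exact jt_ext hpr fun j hj => (h.choose_spec j hj).trans (hv j hj).symm

theorem sol (LIA : Pool.Agent.BE01.LiaStmt) (LIX : LixStmt) (QEF : QefStmt) (INQ : InqStmt)
    (JLF : JlfStmt) : SolStmt := by
  intro T _ μ _ s V C0 X _ _ W A L hs hV hC0 hS hA hpr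
  have hs1 : 1 ≤ s := by omega
  refine ⟨KK L, ⟨?_, ?_⟩, ?_⟩
  · intro t0 m N f ht0 hm hcu hle
    have h : Src A t0 m N f := ⟨ht0, hm, hcu, hle⟩
    obtain ⟨x, hx, hx2⟩ := exist LIA LIX QEF INQ JLF hs hV hC0 hS hpr h
    have hK : ∀ t > t0, KK L f t = x t := fun t ht => KK_eq hpr (hx2 t ht).1
    refine ⟨A.congr t0 x _ ((hA t0 x).2 hx) hK, fun t ht => ?_⟩
    rw [hK t ht]
    refine (hx2 t ht).2.trans (le_of_eq ?_)
    unfold Bt
    ring
  · intro t0 m N f g ht0 hm hf hg hfl hgl t ht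
    have h1 : Src A t0 m N f := ⟨ht0, hm, hf, hfl⟩
    have h2 : Src A t0 m N g := ⟨ht0, hm, hg, hgl⟩
    obtain ⟨x, _, hx2⟩ := exist LIA LIX QEF INQ JLF hs hV hC0 hS hpr h1
    obtain ⟨y, _, hy2⟩ := exist LIA LIX QEF INQ JLF hs hV hC0 hS hpr h2
    rw [KK_eq hpr (hx2 t ht).1, KK_eq hpr (hy2 t ht).1]
    refine KK_eq hpr fun j hj => ?_
    rw [map_sub, (hx2 t ht).1 j hj, (hy2 t ht).1 j hj]
    have i1 := (LIA (Lp ℝ 2 μ) W.C (fun r => L.pr j (f r)) t0 m (max 1 V * N) (by linarith) hm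
      W.prp.C_le W.prp.C_cont (prf_cont h1 j) (prf_le QEF INQ hs1 hV hpr h1 hj)).1 t ht
    have i2 := (LIA (Lp ℝ 2 μ) W.C (fun r => L.pr j (g r)) t0 m (max 1 V * N) (by linarith) hm
      W.prp.C_le W.prp.C_cont (prf_cont h2 j) (prf_le QEF INQ hs1 hV hpr h2 hj)).1 t ht
    unfold yv cI
    rw [← integral_sub i1 i2]
    refine integral_congr_ae (Eventually.of_forall fun τ => ?_)
    simp only [map_sub]
  · intro t0 m N f ht0 hm hcu hle j hj t ht
    have h : Src A t0 m N f := ⟨ht0, hm, hcu, hle⟩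
    obtain ⟨x, hx, hx2⟩ := exist LIA LIX QEF INQ JLF hs hV hC0 hS hpr h
    rw [KK_eq hpr (hx2 t ht).1]
    exact (hx2 t ht).1 j hj

end

end Pool.Agent.BEN.H96
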